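import Mathlib

set_option autoImplicit false

namespace Pool.Agent.Results.MP_435f72_co.Counter

/-- Parameterized equivalence: a bijection of the alphabet carries `x` letterwise to `y`. -/
def PEq {A : Type} (x y : List A) : Prop := ∃ f : A ≃ A, x.map f = y

/-- Parameterized equivalence as a setoid on strings. -/
def pSetoid (A : Type) : Setoid (List A) where
  r := PEq
  iseqv :=
    { refl := fun x => ⟨Equiv.refl A, by simp⟩
      symm := by
        rintro x y ⟨f, rfl⟩
        exact ⟨f.symm, by simp [List.map_map]⟩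
      trans := by
        rintro x y z ⟨f, rfl⟩ ⟨g, rfl⟩
        exact ⟨f.trans g, by simp [List.map_map]⟩ }

/-- A parameterized square: a nonempty string `x y` with `x` equivalent to `y`. -/
def IsPSq {A : Type} (w : List A) : Prop := ∃ x y : List A, x ≠ [] ∧ PEq x y ∧ w = x ++ y

/-- The parameterized squares occurring as contiguous substrings of `s`. -/
def psSet {A : Type} (s : List A) : Set (List A) := {w | w <:+: s ∧ IsPSq w}

/-- The number of equivalence classes of parameterized squares occurring in `s`. -/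
noncomputable def PS {A : Type} (s : List A) : ℕ :=
  (Quotient.mk (pSetoid A) '' psSet s).ncard

instance (x y : List (Fin 4)) : Decidable (PEq x y) := by
  unfold PEq; infer_instance

def s0 : List (Fin 4) := [0, 1, 2, 3, 2, 0, 3]

def ws : Fin 7 → List (Fin 4) × List (Fin 4) :=
  ![([0], [1]), ([0, 1], [2, 3]), ([1, 2], [3, 2]), ([2, 3], [2, 0]), ([3, 2], [0, 3]),
    ([0, 1, 2], [3, 2, 0]), ([1, 2, 3], [2, 0, 3])]

lemma h1 : ∀ i : Fin 7, (ws i).1 ≠ [] ∧ PEq (ws i).1 (ws i).2 ∧ ((ws i).1 ++ (ws i).2) <:+: s0 := by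
  decide +kernel

lemma h2 : ∀ i j : Fin 7, PEq ((ws i).1 ++ (ws i).2) ((ws j).1 ++ (ws j).2) → i = j := by
  decide +kernel

lemma fin_ps {A : Type} (s : List A) : (psSet s).Finite := by
  refine (List.finite_toSet s.sublists).subset ?_
  intro w hw
  simpa using hw.1.sublist

theorem result : ∃ s : List (Fin 4), s.length = 7 ∧ s.length ≤ PS s := by
  refine ⟨s0, rfl, ?_⟩
  have hinj : Function.Injective
      (fun i : Fin 7 => Quotient.mk (pSetoid (Fin 4)) ((ws i).1 ++ (ws i).2)) := by
    intro i j h
    exact h2 i j (Quotient.exact h)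
  have hsub : Set.range (fun i : Fin 7 => Quotient.mk (pSetoid (Fin 4)) ((ws i).1 ++ (ws i).2))
      ⊆ Quotient.mk (pSetoid (Fin 4)) '' psSet s0 := by
    rintro _ ⟨i, rfl⟩
    exact ⟨_, ⟨(h1 i).2.2, _, _, (h1 i).1, (h1 i).2.1, rfl⟩, rfl⟩
  have := Set.ncard_le_ncard hsub ((fin_ps s0).image _)
  rw [Set.ncard_range_of_injective hinj] at this
  simpa [PS, s0] using this

end Pool.Agent.Results.MP_435f72_co.Counter
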